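import Pool.Agent.W761.CP.Defs

/-! # Project CP, part APR: a priori bound for the full operator -/

set_option autoImplicit false

open MeasureTheory
open scoped ENNReal FourierTransform SchwartzMap InnerProductSpace

namespace Pool.Agent.W155.CP
open Pool.Agent.Helper209.CX (Ed L2d InH1 dirichlet IsHu)
open Pool.Agent.W761.CP

variable {d : ℕ}

lemma mulR_memLp {χ : Ed d → ℝ} (hc : Continuous χ) (hb : ∀ x, |χ x| ≤ 1) (u : L2d d) :
    MemLp (fun x => (χ x : ℂ) * u x) 2 volume := by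
  refine (Lp.memLp u).of_le ((Complex.continuous_ofReal.comp hc).aestronglyMeasurable.mul
    (Lp.aestronglyMeasurable u)) (Filter.Eventually.of_forall fun x => ?_)
  rw [norm_mul, Complex.norm_real, Real.norm_eq_abs]
  exact mul_le_of_le_one_left (norm_nonneg _) (hb x)

lemma mulR_coe {χ : Ed d → ℝ} (hc : Continuous χ) (hb : ∀ x, |χ x| ≤ 1) (u : L2d d) :
    mulR χ u =ᵐ[volume] fun x => (χ x : ℂ) * u x := by
  unfold mulR
  rw [dif_pos (mulR_memLp hc hb u)]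
  exact (mulR_memLp hc hb u).coeFn_toLp

lemma mulR_lin {χ : Ed d → ℝ} (hc : Continuous χ) (hb : ∀ x, |χ x| ≤ 1) (z : ℂ) (u f : L2d d) :
    mulR χ (z • u + f) = z • mulR χ u + mulR χ f := by
  refine Lp.ext ?_
  filter_upwards [mulR_coe hc hb (z • u + f), mulR_coe hc hb u, mulR_coe hc hb f,
    Lp.coeFn_add (z • u) f, Lp.coeFn_smul z u, Lp.coeFn_add (z • mulR χ u) (mulR χ f),
    Lp.coeFn_smul z (mulR χ u)] with x h1 h2 h3 h4 h5 h6 h7
  rw [h1, h4, h6, Pi.add_apply, Pi.add_apply, h5, h7, Pi.smul_apply, Pi.smul_apply, h2, h3]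
  simp only [smul_eq_mul]
  ring

lemma grad_bound {φ : Ed d → ℝ} (hφ : Mul φ) (hc : HasCompactSupport φ) :
    ∃ C : ℝ, 0 ≤ C ∧ ∀ x, ∑ k, pd k φ x ^ 2 ≤ C := by
  have h1 : Continuous (fderiv ℝ φ) := hφ.smooth.continuous_fderiv (by simp)
  have h2 : HasCompactSupport (fderiv ℝ φ) := hc.fderiv ℝ
  obtain ⟨C, hC⟩ := h1.bounded_above_of_compact_support h2
  have hC0 : 0 ≤ C := (norm_nonneg _).trans (hC 0)
  refine ⟨∑ _k : Fin d, C ^ 2, Finset.sum_nonneg fun _ _ => sq_nonneg C, fun x => ?_⟩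
  refine Finset.sum_le_sum fun k _ => ?_
  have h3 : ‖pd k φ x‖ ≤ C := by
    unfold pd
    refine ((fderiv ℝ φ x).le_opNorm _).trans ?_
    have : ‖(ev k : Ed d)‖ = 1 := by simp [ev]
    rw [this, mul_one]
    exact hC x
  have h4 := abs_le.1 (show |pd k φ x| ≤ C from h3)
  exact sq_le_sq' h4.1 h4.2

/-- the numerical part -/
lemma absorb {U F G e K C1 C η : ℝ} (hU : 0 ≤ U) (hF : 0 ≤ F) (_hG : 0 ≤ G) (he : 0 ≤ e)
    (hK : 0 ≤ K) (hC1 : 0 ≤ C1) (hη : 0 < η) (hη1 : η ≤ 1) (hCe : C * e ≤ η)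
    (hC : C = 18 + 648 * C1 + 648 * K) (h1 : U ≤ 9 / η * (F + G))
    (h2 : G ^ 2 ≤ K * e ^ 2 * U ^ 2 + C1 * (U * F)) : U ≤ C / η ^ 2 * F := by
  have hC18 : 18 ≤ C := by rw [hC]; nlinarith
  rw [div_mul_eq_mul_div, le_div_iff₀ (by positivity)]
  have h1' : U * η ≤ 9 * (F + G) := by
    rw [div_mul_eq_mul_div, le_div_iff₀ hη] at h1
    exact h1
  by_cases hcase : 9 * G ≤ U * η / 2
  · have h3 : U * η ≤ 18 * F := by linarith
    have h4 : U * η ^ 2 ≤ U * η := by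
      have : η ^ 2 ≤ η := by nlinarith
      exact mul_le_mul_of_nonneg_left this hU
    have h5 : 18 * F ≤ C * F := mul_le_mul_of_nonneg_right hC18 hF
    linarith
  · push Not at hcase
    have h3 : U * η < 18 * G := by linarith
    have h4 : (U * η) ^ 2 < (18 * G) ^ 2 := by
      have : 0 ≤ U * η := by positivity
      exact pow_lt_pow_left₀ h3 this (by norm_num)
    have h5 : 648 * (K * e ^ 2) ≤ η ^ 2 := by
      have h6 : (C * e) ^ 2 ≤ η ^ 2 := pow_le_pow_left₀ (by positivity) hCe 2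
      have h7 : 648 * K ≤ C ^ 2 := by
        have : 648 * K ≤ C := by rw [hC]; nlinarith
        nlinarith
      have h8 : 648 * K * e ^ 2 ≤ C ^ 2 * e ^ 2 := mul_le_mul_of_nonneg_right h7 (sq_nonneg e)
      nlinarith
    have h6 : 648 * (K * e ^ 2) * U ^ 2 ≤ η ^ 2 * U ^ 2 :=
      mul_le_mul_of_nonneg_right h5 (sq_nonneg U)
    have h7 : η ^ 2 * U ^ 2 < 648 * (C1 * (U * F)) := by nlinarith
    have hUpos : 0 < U := by
      rcases hU.lt_or_eq with h | h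
      · exact h
      · exfalso; rw [← h] at h7; simp at h7
    have h8 : η ^ 2 * U < 648 * (C1 * F) := by
      have : U * (η ^ 2 * U) < U * (648 * (C1 * F)) := by nlinarith
      exact lt_of_mul_lt_mul_left this hU
    have h9 : 648 * C1 * F ≤ C * F := mul_le_mul_of_nonneg_right (by rw [hC]; nlinarith) hF
    linarith

theorem apr : S_AGM → S_OUT → S_E2 → S_POT → S_COM → S_CM1 → S_APR := by
  intro hAGM hOUT hE2 hPOT hCOM hCM1 d W M χ b φ a hW hM L
  obtain ⟨FV, -, FO, P4, P5, P6⟩ := hPOT d W M χ b φ a hW (by linarith) L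
  obtain ⟨C1, hC10, hC1⟩ := hCOM d χ L.χm
  obtain ⟨C2, hC20, hC2⟩ := grad_bound L.φm L.φc
  have hχc : Continuous χ := L.χm.smooth.continuous
  have hχb : ∀ x, |χ x| ≤ 1 := fun x => by
    rw [abs_le]; constructor <;> linarith [L.χ0 x, L.χ1 x]
  have hχc' : Continuous fun x => 1 - χ x := continuous_const.sub hχc
  have hχb' : ∀ x, |1 - χ x| ≤ 1 := fun x => by
    rw [abs_le]; constructor <;> linarith [L.χ0 x, L.χ1 x]
  refine ⟨18 + 648 * C1 + 648 * (C1 * (M / 2)), min 1 (1 / (C2 + 1)), by nlinarith,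
    lt_min one_pos (by positivity), ?_⟩
  intro h hh hh0 η hη hη1 hCη z hz1 hz2 hin u f hu
  have hh1 : h < 1 := hh0.trans_le (min_le_left _ _)
  have hh2 : h < 1 / (C2 + 1) := hh0.trans_le (min_le_right _ _)
  obtain ⟨g, hg, -⟩ := id hu
  obtain ⟨m1, m2, m3⟩ := hCM1 d h χ u g L.χm
  obtain ⟨-, -, m4⟩ := hCM1 d h χ u g L.χm
  have hb1 := m3 L.χ0 L.χ1
  have reV : ∀ x, (VV W x).re = W x := by
    intro x; unfold VV; split_ifs <;> simp
  have imV : ∀ x, (VV W x).im ≤ φ x ^ 2 := by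
    intro x; unfold VV; split_ifs with hx
    · simp [L.φG x hx]
    · simp [sq_nonneg]
  -- inner part
  have e1 := hE2 d h (VV W) u (z • u + f) g χ FV hu hg L.χm
  rw [mulR_lin hχc hχb, add_sub_assoc, P4] at e1
  have e2 : z • mulR χ u + (mulR χ f - comm h χ u g) - Complex.I • mulR χ u =
      (z - Complex.I) • mulR χ u + (mulR χ f - comm h χ u g) := by
    rw [sub_smul]; abel
  rw [e2] at e1
  have e3 := hin _ _ e1
  have e4 : η * ‖mulR χ u‖ ≤ ‖f‖ + ‖comm h χ u g‖ :=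
    e3.trans ((norm_sub_le _ _).trans (add_le_add (hb1 f).1 le_rfl))
  -- outer part
  have o1 := hE2 d h (VV W) u (z • u + f) g (fun x => 1 - χ x) FV hu hg m1
  rw [mulR_lin hχc' hχb', m2, sub_neg_eq_add, add_assoc, P5] at o1
  have o2 : ‖mulR (fun x => 1 - χ x) u‖ ≤
      8 * ‖mulR (fun x => 1 - χ x) f + comm h χ u g‖ := by
    refine hOUT d h M C2 (Vout W M χ) φ _ _ z hh (by linarith) FO ?_ ?_ L.φm ?_ L.φc ?_ hC2 ?_
      hz2 hz1 o1
    · intro x
      unfold Vout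
      split_ifs
      · simp; linarith
      · rw [reV]; exact hW.nonneg x
    · intro x
      unfold Vout
      split_ifs
      · simp [sq_nonneg]
      · exact imV x
    · intro x
      have := L.φ0 x
      have := L.φ1 x
      nlinarith
    · filter_upwards [L.φW] with x hx hφx
      unfold Vout
      split_ifs with hχx
      · simp
      · rw [reV]; exact hx hφx hχx
    · have q1 : h * (C2 + 1) < 1 := (lt_div_iff₀ (by positivity)).1 hh2
      have q2 : h ^ 2 * C2 ≤ 1 := by nlinarith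
      linarith
  have o3 : ‖mulR (fun x => 1 - χ x) u‖ ≤ 8 * (‖f‖ + ‖comm h χ u g‖) :=
    o2.trans (mul_le_mul_of_nonneg_left ((norm_add_le _ _).trans
      (add_le_add (hb1 f).2 le_rfl)) (by norm_num))
  -- sum
  have s1 : ‖u‖ ≤ ‖mulR χ u‖ + ‖mulR (fun x => 1 - χ x) u‖ := by
    conv_lhs => rw [← P6 u]
    exact norm_add_le _ _
  have s2 : ‖mulR χ u‖ ≤ 1 / η * (‖f‖ + ‖comm h χ u g‖) := by
    rw [div_mul_eq_mul_div, one_mul, le_div_iff₀ hη, mul_comm]
    exact e4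
  have s3 : ‖u‖ ≤ 9 / η * (‖f‖ + ‖comm h χ u g‖) := by
    have q0 : 0 ≤ ‖f‖ + ‖comm h χ u g‖ := by positivity
    have q1 : 8 ≤ 8 / η := by rw [le_div_iff₀ hη]; linarith
    have q2 : 8 * (‖f‖ + ‖comm h χ u g‖) ≤ 8 / η * (‖f‖ + ‖comm h χ u g‖) :=
      mul_le_mul_of_nonneg_right q1 q0
    have q3 : 9 / η * (‖f‖ + ‖comm h χ u g‖) =
        1 / η * (‖f‖ + ‖comm h χ u g‖) + 8 / η * (‖f‖ + ‖comm h χ u g‖) := by ring
    rw [q3]
    linarith
  -- Agmon
  have a1 := hAGM d h M a (VV W) b u f g z hh (by linarith) L.apos.le FV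
    (fun x => by rw [reV]; exact hW.nonneg x) L.bm L.bc L.b0 L.b1
    (fun x hx => by rw [reV]; exact L.bW x hx) L.ab hz2 hu hg
  have a2 := hC1 b h u g L.bm.smooth.continuous.measurable L.bχ hh hh1.le
  have i1 : 0 ≤ ∫ x in {x | b x = 1}, ∑ k, ‖g k x‖ ^ 2 :=
    integral_nonneg fun x => Finset.sum_nonneg fun k _ => sq_nonneg _
  have i2 : 0 ≤ ∫ x in {x | b x = 1}, ‖u x‖ ^ 2 := integral_nonneg fun x => sq_nonneg _
  refine absorb (G := ‖comm h χ u g‖) (e := Real.exp (-(a / h))) (K := C1 * (M / 2)) (C1 := C1)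
    (norm_nonneg u) (norm_nonneg f) (norm_nonneg _) (Real.exp_pos _).le (by positivity) hC10 hη
    hη1 hCη rfl s3 ?_
  have a3 : Real.exp (-(a / h)) ^ 2 = Real.exp (-(2 * a / h)) := by
    rw [← Real.exp_nat_mul]; congr 1; push_cast; ring
  have a4 : h ^ 2 * (∫ x in {x | b x = 1}, ∑ k, ‖g k x‖ ^ 2) + ∫ x in {x | b x = 1}, ‖u x‖ ^ 2 ≤
      Real.exp (-(2 * a / h)) * (M / 2) * ‖u‖ ^ 2 + ‖u‖ * ‖f‖ := by
    refine le_trans (add_le_add le_rfl ?_) a1
    exact le_mul_of_one_le_left i2 (by linarith)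
  calc ‖comm h χ u g‖ ^ 2 ≤ C1 * _ := a2
    _ ≤ C1 * (Real.exp (-(2 * a / h)) * (M / 2) * ‖u‖ ^ 2 + ‖u‖ * ‖f‖) :=
        mul_le_mul_of_nonneg_left a4 hC10
    _ = C1 * (M / 2) * Real.exp (-(a / h)) ^ 2 * ‖u‖ ^ 2 + C1 * (‖u‖ * ‖f‖) := by
        rw [a3]; ring

end Pool.Agent.W155.CP
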